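import Mathlib
import Pool.Agent.H57.Oval.Defs
import Pool.Agent.H57.Oval.Main

/-!
Problem MP_035beb_an, question Q1, answered affirmatively: an oval for which every two-pencil map
`F_{γ,P,Q}` with `PQ` meeting the oval is conjugate to a Mobius transformation is an ellipse.

Idea of the proof. Take `Q` outside and `P` inside the oval such that `P, Q` are harmonic with
respect to the two points of the line `PQ` on the oval. Then `F` has multiplier `-1` at its fixed
points, so the conjugate projective map, and hence `F`, is an involution; thus `σ_P` and `σ_Q`
commute, which forces `P` to lie on the chord joining the two points of tangency from `Q`. Hence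
the oval is invariant under the harmonic homology with centre `Q` and axis this chord, for every
exterior point `Q`, and it is then a conic by a direct computation.
-/

open Pool.Agent.H57.Oval

namespace Pool.Agent.Results.MP_035beb_an.OvalEllipse

/-- Let `γ = range c` be an oval such that for all distinct `P, Q ∈ ℝ² ∖ γ` for which the line `PQ`
meets `γ`, the map `F_{γ,P,Q} = σ_Q ∘ σ_P` is conjugate to a Mobius transformation. Then `γ` is an
ellipse. -/
theorem result (c : ℝ → EuclideanSpace ℝ (Fin 2)) (hc : IsOval c)
    (h : ∀ P Q : EuclideanSpace ℝ (Fin 2), P ≠ Q → P ∉ Set.range c → Q ∉ Set.range c →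
      (∃ z ∈ Set.range c, ∃ r : ℝ, z = P + r • (Q - P)) →
        ConjToMobius c (pencilMap (Set.range c) P Q)) :
    IsEllipse (Set.range c) :=
  ellipse_of_allConj hc h

end Pool.Agent.Results.MP_035beb_an.OvalEllipse
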